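import Pool.Agent.H512.IT.Types

set_option autoImplicit false

/-!
# The `Σ`-Leopoldt conjecture for CM types which are not induced from the imaginary quadratic field

Let `K / ℚ` be a cyclic CM field of degree `2 d`, `d` odd, `γ` a generator of its Galois group and
`k` its imaginary quadratic subfield. Let `H ⊇ K` be abelian over `k` and Galois over `ℚ`, and `χ` a
faithful character of `Gal(H / K)`. By the theorem of Baker and Brumer the `Σ`-Leopoldt conjecture
holds for `χ` and the two CM types of `K` which are induced from `k`: the regulator is a product of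
linear forms in logarithms. For the other `2^d - 2` types it mixes the logarithms at the two
embeddings of `k`.

Suppose that the order of `χ` is a power of `p`, or more generally that a generator of
`Gal(K / ℚ)` acts by `h ↦ h ^ (p ^ j)` on the elements of `Gal(H / K)` of order prime to `p`. For
example `H / k` may be anticyclotomic of `p`-power degree over `K`. We prove the conjecture for
`χ` and

* all `p`-ordinary CM types of `K` which are intervals `σ₀, σ₀ γ, …, σ₀ γ^(d-1)`;
* ALL `p`-ordinary CM types if `K` is sextic (`d = 3`).

Proof. By the theorem of the hand-in IntervalTypes the kernel of `log_S` for an interval is the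
kernel of Leopoldt's map, which is zero as `H / k` is abelian. Six of the eight CM types of a cyclic
sextic field are intervals, the other two are induced from `k`.
-/

namespace Pool.Agent.Results.MP_fc6b1e_nt.AbelianOverQuadratic

open NumberField Pool.Agent.W289.SL Pool.Agent.W332.SL6 Pool.Agent.H512.IT

/-- Let `F` be a totally real field of degree `d`, `K` a totally imaginary quadratic extension of
`F`, cyclic over `ℚ` with generator `γ`, and `S` a `p`-ordinary CM type of `K`. Let `H` be a number
field containing `K`, abelian over an imaginary quadratic subfield `k` of `K`, `g` an automorphism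
of `H` which extends `γ` (so `H` is Galois over `ℚ`), `χ` an injective character of `Gal(H/K)`, and
suppose that `[H : K]` is a power of `p` or that `g h g⁻¹ = h ^ (p ^ j)` for all `h ∈ Gal(H/K)` of
order prime to `p`, for some `j`. If `S` consists of embeddings `σ₀ γ^i`, `0 ≤ i < d`, or if
`d = 3`, then the `Σ`-Leopoldt conjecture holds for `χ` and `S`. -/
theorem result (p : ℕ) [Fact p.Prime] (F K : Type) [Field F] [NumberField F] [IsTotallyReal F]
    [Field K] [NumberField K] [IsTotallyComplex K] [Algebra F K]
    (hFK : Module.finrank F K = 2) [IsGalois ℚ K] (γ : K ≃ₐ[ℚ] K)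
    (hγ : ∀ δ : K ≃ₐ[ℚ] K, δ ∈ Subgroup.zpowers γ)
    (S : Set (K →+* ℂ_[p])) (hS : IsCMType p F K S) (hord : Ordinary S)
    (hS' : IsInterval γ (Module.finrank ℚ F) S ∨ Module.finrank ℚ F = 3)
    (k H : Type) [Field k] [NumberField k] [IsTotallyComplex k] (hk : Module.finrank ℚ k = 2)
    [Algebra k K] [Field H] [NumberField H] [Algebra K H] [IsGalois K H] [Algebra k H]
    [IsScalarTower k K H] [IsGalois k H] (hab : ∀ a b : H ≃ₐ[k] H, a * b = b * a)
    (g : H ≃ₐ[ℚ] H) (hg : ∀ x : K, g (algebraMap K H x) = algebraMap K H (γ x))
    (χ : (H ≃ₐ[K] H) →* ℂ_[p]ˣ) (hχ : Function.Injective χ)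
    (hF : (∃ n : ℕ, Module.finrank K H = p ^ n) ∨ ActsByFrobenius (K := K) p g) :
    SigmaLeopoldt p K H S χ := by
  classical
  have : FiniteDimensional K H := Module.Finite.of_restrictScalars_finite ℚ K H
  have : FiniteDimensional k H := Module.Finite.of_restrictScalars_finite ℚ k H
  have hFpos : 0 < Module.finrank ℚ F := Module.finrank_pos
  have hdeg : Module.finrank ℚ F < Module.finrank ℚ K := by
    rw [← Module.finrank_mul_finrank ℚ F K, hFK]
    omega
  have hF' : ActsByFrobenius (K := K) p g := by
    rcases hF with ⟨n, hn⟩ | hF
    · exact acts_of_pow hn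
    · exact hF
  have hpl : ∀ w w' : InfinitePlace k, w = w' := by
    have h1 := IsTotallyComplex.finrank k
    have h1' := InfinitePlace.card_eq_nrRealPlaces_add_nrComplexPlaces k
    rw [IsTotallyComplex.nrRealPlaces_eq_zero k] at h1'
    have h2 : Fintype.card (InfinitePlace k) ≤ 1 := by omega
    exact fun w w' => Fintype.card_le_one_iff.1 h2 w w'
  have main : IsInterval γ (Module.finrank ℚ F) S → SigmaLeopoldt p K H S χ := by
    intro hint L hL x hx h0
    obtain ⟨φ⟩ : Nonempty (k →+* ℂ_[p]) := inferInstance
    exact brumer_abelian hpl hab hL φ fun σ _ =>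
      interval_ker hγ hFpos hdeg (card_places (F := F) hFK).le hg hχ hF' hord hint hL hx h0 σ
  rcases hS' with hint | h3
  · exact main hint
  · rcases sextic hFK h3 hγ hS with hint | ⟨⟨σ, hσ⟩, hstab⟩
    · apply main
      rw [h3]
      exact hint
    · intro L hL x hx h0
      apply brumer_abelian hpl hab hL (σ.comp (algebraMap k K))
      intro s hs
      apply h0
      apply mem_of_induced hFK h3 hγ hstab k hk hσ
      rw [← hs, RingHom.comp_assoc, ← IsScalarTower.algebraMap_eq]

end Pool.Agent.Results.MP_fc6b1e_nt.AbelianOverQuadratic
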