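import Pool.Agent.H512.E.Fin

set_option autoImplicit false

/-!
# All `p`-ordinary CM types of abelian CM fields whose Galois group has a cyclic Sylow 2-subgroup

Let `K / ℚ` be an abelian CM field of degree `2 d` such that the Sylow 2-subgroup of `Gal(K / ℚ)` is
cyclic (for example `K / ℚ` cyclic), and `k` the subfield of `K` with `[k : ℚ]` the 2-part
`2 ^ (m + 1)` of `2 d`. Let `H ⊇ K` be abelian over `k` and Galois over `ℚ`, `H / K` cyclic, `χ` a
faithful character of `Gal(H / K)`, and suppose that the elements of `Gal(H / K)` of order prime to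
`p` are central in `Gal(H / ℚ)` (for example, the order of `χ` is a power of `p`). Let `p = 2` or
`p > (d!) ^ d`.

We prove that for ALL `p`-ordinary CM types `Σ` of `K` the kernel of the regulator map `log_Σ` is the
kernel of Leopoldt's regulator map: if the logarithms of `x ∈ ℂ_p ⊗ 𝓞_H^×` at the embeddings above `Σ`
vanish then all logarithms of `x` vanish. So `Σ`-Leopoldt for `χ` is equivalent to the
`χ`-part of Leopoldt's conjecture. If `d` is odd, or if `d ≡ 2` modulo `4` and `H` is not a CM field,
the `Σ`-Leopoldt conjecture follows unconditionally.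

Proof. Let `n = 2 ^ (m + 1)`, `g` an automorphism of `H` which extends a generator of the Sylow
subgroup, `s` an embedding of `H`. For a character `ψ` of `Gal(H / k)` let `V_ψ` be the space of the
functions `j ↦ log (s g ^ j x)` on `ℤ / n`, `x` in the `ψ`-part of `ℂ_p ⊗ 𝓞_H^×`; its dimension is
at most the number `2 ^ m` of the infinite places of `k`. We choose an automorphism `τ` of `ℂ_p`, acting
trivially on a given finite set of residues, with `ψ(g h g⁻¹) = τ(ψ(h))` for all `ψ`. The semilinear
operator `τ ⊗ g` acts on the `ψ`-part; as a consequence the reduction `X_ψ` of `V_ψ` modulo the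
maximal ideal of the integers of `ℂ_p`, a space of functions with values in the residue field, is
invariant under a twisted shift, and the twist is the same for all `ψ` with the same restriction to
`Gal(H / K)`. After untwisting, `X_ψ` is an ideal of the group ring of the cyclic group of order
`2 ^ (m + 1)`, of dimension at most `2 ^ m`. If `p = 2` such an ideal is annihilated by
`(T - 1) ^ (2 ^ m) = T ^ (2 ^ m) - 1`, that is, it consists of functions which are invariant under the
complex conjugation; so a relation between the `X_ψ` at the points of `Σ` is a relation at all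
points, and it is trivial by Fourier inversion on `Gal(K / k)`. If `p` is large, `X_ψ` is spanned by
exponential functions, and the relation says that a matrix with entries roots of unity has linearly
dependent rows; by the result at the prime 2, applied to the lifts to characteristic zero, it
has a nonzero maximal minor, an algebraic integer whose conjugates are bounded by `d!`, so it is a unit
at `p` if `p > (d!) ^ d`.
-/

namespace Pool.Agent.Results.MP_fc6b1e_nt.AllOrdinaryTypes

open NumberField Pool.Agent.W289.SL Pool.Agent.W332.SL6 Pool.Agent.H512.IT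
  Pool.Agent.H512.E
open scoped Nat

/-- Let `F` be a totally real field of degree `d`, `K` a totally imaginary quadratic extension of `F`
which is abelian over `ℚ`, and `S` a `p`-ordinary CM type of `K`, where `p = 2` or `p > (d!)^d`. Let
`k` be a subfield of `K`, cyclic over `ℚ` of degree `2 ^ (m + 1)`, with `[K : k]` odd. Let `H` be a
number field containing `K`, Galois over `ℚ` and abelian over `k`, and `χ` an injective character of
`Gal(H/K)`, and suppose that the elements of `Gal(H/K)` of order prime to `p` commute with all
elements of `Gal(H/ℚ)`. Then every `x ∈ ℂ_p ⊗ 𝓞_H^×` with `log σ(x) = 0` for all embeddings `σ` of `H`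
above `S` has `log σ(x) = 0` for all embeddings `σ` of `H`. If `m = 0`, or if `m = 1` and `H` is not a
CM field, then the `Σ`-Leopoldt conjecture holds for `χ` and `S`. -/
theorem result (p : ℕ) [Fact p.Prime] (F K : Type) [Field F] [NumberField F] [IsTotallyReal F]
    [Field K] [NumberField K] [IsTotallyComplex K] [Algebra F K]
    (hFK : Module.finrank F K = 2) [IsGalois ℚ K] (hK : ∀ a b : K ≃ₐ[ℚ] K, a * b = b * a)
    (hp : p = 2 ∨ (Module.finrank ℚ F)! ^ Module.finrank ℚ F < p)
    (S : Set (K →+* ℂ_[p])) (hS : IsCMType p F K S) (hord : Ordinary S)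
    (k H : Type) [Field k] [NumberField k] [IsGalois ℚ k] [IsCyclic (k ≃ₐ[ℚ] k)] [Algebra k K]
    (m : ℕ) (hk : Module.finrank ℚ k = 2 ^ (m + 1)) (hodd : Odd (Module.finrank k K))
    [Field H] [NumberField H] [Algebra K H] [Algebra k H] [IsScalarTower k K H]
    [IsGalois ℚ H] (hab : ∀ a b : H ≃ₐ[k] H, a * b = b * a)
    (χ : (H ≃ₐ[K] H) →* ℂ_[p]ˣ) (hχ : Function.Injective χ)
    (hcen : ∀ h : H ≃ₐ[K] H, (orderOf h).Coprime p → ∀ g : H ≃ₐ[ℚ] H, ∀ y, g (h y) = h (g y)) :
    (∀ (L : ℂ_[p] → ℂ_[p]) (hL : IsIwasawaLog p L) (x : UM p H),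
      (∀ σ : H →+* ℂ_[p], σ.comp (algebraMap K H) ∈ S → logLin hL σ x = 0) →
        ∀ σ : H →+* ℂ_[p], logLin hL σ x = 0) ∧
    ((m = 0 ∨ (m = 1 ∧ ¬ IsCMField H)) → SigmaLeopoldt p K H S χ) := by
  classical
  have : FiniteDimensional K H := Module.Finite.of_restrictScalars_finite ℚ K H
  have : FiniteDimensional k H := Module.Finite.of_restrictScalars_finite ℚ k H
  have : FiniteDimensional k K := Module.Finite.of_restrictScalars_finite ℚ k K
  have : IsGalois k K := IsGalois.tower_top_of_isGalois ℚ k K
  have : IsGalois k H := IsGalois.tower_top_of_isGalois ℚ k H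
  have : IsGalois K H := IsGalois.tower_top_of_isGalois ℚ K H
  have hTk : IsTotallyComplex k := totallyComplex_k (F := F) (K := K) hFK hodd
  obtain ⟨γk, hγk⟩ := IsCyclic.exists_generator (α := k ≃ₐ[ℚ] k)
  have hcard := card_places_k (k := k) hk
  have hker : ∀ (L : ℂ_[p] → ℂ_[p]) (hL : IsIwasawaLog p L) (x : UM p H),
      (∀ σ : H →+* ℂ_[p], σ.comp (algebraMap K H) ∈ S → logLin hL σ x = 0) →
        ∀ σ : H →+* ℂ_[p], logLin hL σ x = 0 := fun L hL x h0 σ =>
    all_types_ker rfl hFK hk hodd hγk hK hp hS hord hcard.le hab χ hχ hcen hL h0 σ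
  refine ⟨hker, ?_⟩
  rintro (rfl | ⟨rfl, hCM⟩)
  · intro L hL x _ h0
    have hpl : ∀ w w' : InfinitePlace k, w = w' := by
      have h2 : Fintype.card (InfinitePlace k) ≤ 1 := by rw [hcard]; norm_num
      exact fun w w' => Fintype.card_le_one_iff.1 h2 w w'
    exact zero_of_quad hpl hab hL (hker L hL x h0)
  · intro L hL x hx h0
    exact zero_of_quartic (F := F) hFK (hk.trans (by norm_num)) hodd hγk hab hCM χ hχ hL hx
      (hker L hL x h0)

end Pool.Agent.Results.MP_fc6b1e_nt.AllOrdinaryTypes
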