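import Pool.Agent.H674.SH.DefS

set_option autoImplicit false

/-!
# The `Σ`-Leopoldt conjecture for infinitely many characters of every `p`-power order, over every CM field

Let `F` be a totally real number field, `K` a totally imaginary quadratic extension of `F`, `p` an odd
prime which is unramified in `K`, and `S` a `p`-ordinary CM type of `K` with values in `ℂ_p`. No
hypothesis on `F` is made (in particular Leopoldt's conjecture for `F` is not assumed).

We prove that for every `m ≥ 1` there are infinitely many cyclic extensions `H / K` of degree `p ^ m`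
such that the `Σ`-Leopoldt conjecture holds for ALL nontrivial characters of `Gal(H / K)`. More
precisely, for every finite set `B` of primes of `K` there is such an extension whose ramified primes
form a nonempty set disjoint from `B`. Consequently the space of the `x ∈ ℂ_p ⊗ 𝓞_H^×` all whose
logarithms at the embeddings above `Σ` vanish has the same dimension as the space for `K` (which is zero
in the case that the conjecture holds for the trivial character, that is, Leopoldt's conjecture for `F`).

Proof (project SH of the library, started by helper5 of an earlier run and proved by many authors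
there; the parts are put together here). Let `T` be a finite set of primes of degree one of `K` and
`χ` a character of order `p ^ m` of conductor `∏_{v ∈ T} v`, with local components of order `p ^ m` at
the primes of `T`, and `H` the cyclic extension which belongs to `χ`. If some layer of `H / K`
violates the conjecture, then there are units of `H`, of relative norm one, arbitrarily close to `1`
at the places above `Σ_p`, which are not `p`-th powers; a unit of this kind which is fixed by `Gal(H/K)`
modulo `p`-th powers is an element `b` of `K^*` up to a `p`-th power (Hilbert 90), and `b` lies in the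
Selmer group `R(T, χ)` of the elements which are close to `p`-th powers at `Σ_p`, have divisors divisible
by `p` outside `T` and are killed by the local components of `χ ^ (p ^ (m - 1))`. The Selmer group is
made trivial by adding suitable pairs of primes to `T`: here one uses that `Σ_p` is big (the unit rank
of `K` is `d - 1`, the local degrees above `Σ_p` have sum `d`), which gives room in the dual group, and
Chebotarev's theorem for a field which contains the `p ^ m`-th roots of the elements involved and a ray
class field. Class field theory (the reciprocity law, the existence theorem, and class group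
characters are unramified) is used in the form proved in the library.
-/

namespace Pool.Agent.Results.MP_fc6b1e_nt.CharactersOfEveryPPowerOrder

open NumberField IsDedekindDomain Pool.Agent.W289.SL

/-- The prime `p` is unramified in `K`: the ideal `(p)` of `𝓞 K` is radical. -/
def UnramifiedIn (K : Type) [Field K] [NumberField K] (p : ℕ) : Prop :=
  (Ideal.span {(p : 𝓞 K)}).IsRadical

/-- The prime `v` of `K` is unramified in `H`: it is not contained in the square of a prime of `H`. -/
def UnramifiedAt {K : Type} (H : Type) [Field K] [NumberField K] [Field H] [NumberField H]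
    [Algebra K H] (v : HeightOneSpectrum (𝓞 K)) : Prop :=
  ∀ w : HeightOneSpectrum (𝓞 H), w.under (𝓞 K) = v →
    ¬ v.asIdeal.map (algebraMap (𝓞 K) (𝓞 H)) ≤ w.asIdeal ^ 2

/-- The set `S` of embeddings is `p`-ordinary (for a CM type: the places of `K` which belong to `S` and
to its complement are different): it contains with `σ` all embeddings which induce the same place. -/
def Ordinary {p : ℕ} [Fact p.Prime] {K : Type} [Field K] (S : Set (K →+* ℂ_[p])) : Prop :=
  ∀ σ ∈ S, ∀ τ : K →+* ℂ_[p], (∀ x : K, ‖τ x‖ = ‖σ x‖) → τ ∈ S

/-- `H / K` is a cyclic extension of degree `n` in which exactly the primes of `T` ramify. -/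
def IsCyclicRamified (K H : Type) [Field K] [NumberField K] [Field H] [NumberField H] [Algebra K H]
    (n : ℕ) (T : Finset (HeightOneSpectrum (𝓞 K))) : Prop :=
  IsGalois K H ∧ IsCyclic (H ≃ₐ[K] H) ∧ Module.finrank K H = n ∧
    ∀ v : HeightOneSpectrum (𝓞 K), UnramifiedAt H v ↔ v ∉ T

/-- The `Σ`-Leopoldt statement for `S` and all nontrivial characters of `Gal(H / K)`, `H / K` abelian:
they are the faithful characters `χ ≠ 1` of `Gal(E / K)` for the fields `E` between `K` and `H`. -/
def AllCharacters (p : ℕ) [Fact p.Prime] (K H : Type) [Field K] [NumberField K] [Field H]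
    [NumberField H] [Algebra K H] (S : Set (K →+* ℂ_[p])) : Prop :=
  ∀ (E : IntermediateField K H) (χ : (E ≃ₐ[K] E) →* ℂ_[p]ˣ), χ ≠ 1 → Function.Injective χ →
    SigmaLeopoldt p K E S χ

/-- The space of the `x ∈ ℂ_p ⊗ 𝓞_E^×` with `log_p (σ x) = 0` for all embeddings `σ : E → ℂ_p` above
`S`. -/
noncomputable def sigmaKernel (p : ℕ) [Fact p.Prime] (K E : Type) [Field K] [Field E] [NumberField E]
    [Algebra K E] (S : Set (K →+* ℂ_[p])) : Submodule ℂ_[p] (UM p E) where
  carrier := {x | ∀ (L : ℂ_[p] → ℂ_[p]) (hL : IsIwasawaLog p L) (σ : E →+* ℂ_[p]),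
    σ.comp (algebraMap K E) ∈ S → logLin hL σ x = 0}
  add_mem' {x y} hx hy L hL σ hσ := by rw [map_add, hx L hL σ hσ, hy L hL σ hσ, add_zero]
  zero_mem' L hL σ hσ := map_zero _
  smul_mem' c x hx L hL σ hσ := by rw [map_smul, hx L hL σ hσ, smul_zero]

/-- The defect of the `Σ`-Leopoldt statement for `E` and `S`, for all characters together: the dimension
of `sigmaKernel`. -/
noncomputable def sigmaDefect (p : ℕ) [Fact p.Prime] (K E : Type) [Field K] [Field E] [NumberField E]
    [Algebra K E] (S : Set (K →+* ℂ_[p])) : ℕ :=
  Module.finrank ℂ_[p] (sigmaKernel p K E S)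

/-- **Main result.** Let `F` be a totally real number field, `K` a totally imaginary quadratic
extension of `F`, `p` an odd prime which is unramified in `K`, `S` a `p`-ordinary CM type of `K` with
values in `ℂ_p`, `m ≥ 1`, and `B` a finite set of primes of `K`. There are a nonempty finite set `T` of
primes of `K` disjoint from `B` and a cyclic extension `H / K` of degree `p ^ m`, in which exactly the
primes of `T` ramify, such that the `Σ`-Leopoldt conjecture holds for `S` and every nontrivial
character of `Gal(H / K)` (over the field which belongs to the character, and also over `H`), and the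
defects of `H` and `K` are equal. -/
theorem result (p : ℕ) [Fact p.Prime] (hp : p ≠ 2) (F K : Type) [Field F] [NumberField F]
    [IsTotallyReal F] [Field K] [NumberField K] [IsTotallyComplex K] [Algebra F K]
    (hFK : Module.finrank F K = 2) (hK : UnramifiedIn K p)
    (S : Set (K →+* ℂ_[p])) (hS : IsCMType p F K S) (hord : Ordinary S)
    (m : ℕ) (hm : 1 ≤ m) (B : Set (HeightOneSpectrum (𝓞 K))) (hB : B.Finite) :
    ∃ T : Finset (HeightOneSpectrum (𝓞 K)), T.Nonempty ∧ (∀ v ∈ T, v ∉ B) ∧
      ∃ (H : Type) (_ : Field H) (_ : NumberField H) (_ : Algebra K H),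
        IsCyclicRamified K H (p ^ m) T ∧ AllCharacters p K H S ∧
        (∀ χ : (H ≃ₐ[K] H) →* ℂ_[p]ˣ, χ ≠ 1 → SigmaLeopoldt p K H S χ) ∧
        sigmaDefect p K H S = sigmaDefect p K K S := by
  obtain ⟨hbig, hτ⟩ := Pool.Agent.Q195.SH.bcm p F K hFK hK S hS hord
  obtain ⟨T, h1, h2, H, i1, i2, i3, i4, i5, h3, h4, -, h5⟩ :=
    Pool.Agent.H674.SH.layers hp hK S hord hbig m hm (Or.inr hτ) B hB
  have hcomm : ∀ a b : H ≃ₐ[K] H, a * b = b * a := by
    obtain ⟨g, hg⟩ := i5.exists_generator
    intro a b
    obtain ⟨i, rfl⟩ := Subgroup.mem_zpowers_iff.1 (hg a)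
    obtain ⟨j, rfl⟩ := Subgroup.mem_zpowers_iff.1 (hg b)
    rw [← zpow_add, ← zpow_add, add_comm]
  have h6 : ∀ χ : (H ≃ₐ[K] H) →* ℂ_[p]ˣ, χ ≠ 1 → SigmaLeopoldt p K H S χ := fun χ hχ =>
    Pool.Agent.H674.SH.inflate hcomm S h5 χ hχ
  exact ⟨T, h1, h2, H, i1, i2, i3, ⟨i4, i5, h3, h4⟩, h5, h6,
    Pool.Agent.H674.SH.defectS_eq hcomm S h6⟩

end Pool.Agent.Results.MP_fc6b1e_nt.CharactersOfEveryPPowerOrder
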