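import Pool.Agent.H512.IT.Types

set_option autoImplicit false

/-!
# The `Σ`-Leopoldt conjecture over cyclic quartic CM fields

Let `K` be a cyclic quartic CM field, `F` its real quadratic subfield, `S` any `p`-ordinary CM type
of `K`, and `H / K` cyclic, not a CM field, and Galois over `ℚ`. Let `χ ≠ 1` be a faithful
character of `Gal(H / K)`. If the order of `χ` is a power of `p`, or, more generally, if a generator
of `Gal(K / ℚ)` acts by `h ↦ h ^ (p ^ j)` on the elements of `Gal(H / K)` of order prime to `p`,
then the `Σ`-Leopoldt conjecture holds for `χ` and `S`.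

The statement is the nonvanishing of a `2 × 2` determinant of `p`-adic logarithms, for which in
general one needs the four exponentials conjecture. From the six exponentials theorem one gets the
conjecture for at least two of the four CM types of `K` (the hand-in TwoOfFourTypes of the library),
but not for a given one.

Proof. All CM types of a cyclic quartic field are intervals. By the theorem of the hand-in
IntervalTypes the kernel of `log_S` on the `χ`-part is the kernel of Leopoldt's map, the same for
all four types; as it vanishes for some type it is zero.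
-/

namespace Pool.Agent.Results.MP_fc6b1e_nt.CyclicQuarticFields

open NumberField Pool.Agent.W289.SL Pool.Agent.W332.SL6 Pool.Agent.H512.IT

/-- Let `F` be a real quadratic field, `K` a totally imaginary quadratic extension of `F`, cyclic
over `ℚ` with generator `γ`, and `S` any `p`-ordinary CM type of `K`. Let `H/K` be Galois, not a CM
field, `g` an automorphism of `H` which extends `γ` (so `H` is Galois over `ℚ`), `χ ≠ 1` an
injective character of `Gal(H/K)`, and suppose that `[H : K]` is a power of `p` or that
`g h g⁻¹ = h ^ (p ^ j)` for all `h ∈ Gal(H/K)` of order prime to `p`, for some `j`. Then the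
`Σ`-Leopoldt conjecture holds for `χ` and `S`. -/
theorem result (p : ℕ) [Fact p.Prime] (F K : Type) [Field F] [NumberField F] [IsTotallyReal F]
    [Field K] [NumberField K] [IsTotallyComplex K] [Algebra F K]
    (hF2 : Module.finrank ℚ F = 2) (hFK : Module.finrank F K = 2) [IsGalois ℚ K] (γ : K ≃ₐ[ℚ] K)
    (hγ : ∀ δ : K ≃ₐ[ℚ] K, δ ∈ Subgroup.zpowers γ)
    (S : Set (K →+* ℂ_[p])) (hS : IsCMType p F K S) (hord : Ordinary S)
    (H : Type) [Field H] [NumberField H] [Algebra K H] [IsGalois K H] (hCM : ¬ IsCMField H)
    (g : H ≃ₐ[ℚ] H) (hg : ∀ x : K, g (algebraMap K H x) = algebraMap K H (γ x))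
    (χ : (H ≃ₐ[K] H) →* ℂ_[p]ˣ) (hχ : Function.Injective χ) (hχ1 : χ ≠ 1)
    (hF : (∃ n : ℕ, Module.finrank K H = p ^ n) ∨ ActsByFrobenius (K := K) p g) :
    SigmaLeopoldt p K H S χ := by
  classical
  have : FiniteDimensional K H := Module.Finite.of_restrictScalars_finite ℚ K H
  have hdeg : Module.finrank ℚ K = 4 := by
    rw [← Module.finrank_mul_finrank ℚ F K, hFK, hF2]
  have hF' : ActsByFrobenius (K := K) p g := by
    rcases hF with ⟨n, hn⟩ | hF
    · exact acts_of_pow hn
    · exact hF
  have hint : IsInterval γ 2 S := quartic hFK hF2 hγ hS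
  obtain ⟨σ₀, hσ₀⟩ := hint
  have hordγ : orderOf γ = 4 := by rw [orderOf_gen hγ, hdeg]
  -- the next interval
  let S' : Set (K →+* ℂ_[p]) := {σ | ∃ i < 2, ∀ x, σ x = σ₀ (γ ((γ ^ i) x))}
  have hS' : IsInterval γ (Module.finrank ℚ F) S' := by
    rw [hF2]
    exact ⟨σ₀.comp (γ : K →+* K), fun σ => Iff.rfl⟩
  have hS'CM : IsCMType p F K S' := isCMType_of_interval hFK hγ hS'
  have hmem0 : σ₀ ∈ S := (hσ₀ _).2 ⟨0, by norm_num, fun x => rfl⟩
  have hmem1 : σ₀.comp (γ : K →+* K) ∈ S := (hσ₀ _).2 ⟨1, by norm_num, fun x => by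
    rw [pow_one]; rfl⟩
  have hne : S' ≠ S := by
    intro h
    rw [← h] at hmem0
    obtain ⟨i, hi, hi'⟩ := hmem0
    have h1 : 0 = i + 1 := by
      apply pow_inj (γ := γ) (σ₀ := σ₀) (by omega) (by omega)
      intro x
      rw [pow_zero, pow_succ', AlgEquiv.mul_apply]
      exact hi' x
    omega
  have hne' : S' ≠ Sᶜ := by
    intro h
    have h1 : σ₀.comp (γ : K →+* K) ∈ S' := ⟨0, by norm_num, fun x => rfl⟩
    rw [h] at h1
    exact h1 hmem1
  rcases two_types F K H hF2 hFK hCM χ hχ hχ1 S S' hS hS'CM hne hne' with h | h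
  · exact h
  · intro L hL x hx h0
    apply h L hL x hx
    intro σ _
    exact interval_ker hγ (d := 2) (by norm_num) (by omega)
      ((card_places (F := F) hFK).trans hF2).le hg hχ hF' hord ⟨σ₀, hσ₀⟩ hL hx h0 σ

end Pool.Agent.Results.MP_fc6b1e_nt.CyclicQuarticFields
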